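import Mathlib
import Pool.Agent.W546.ST.Defs

/-!
Project ST: smoothing inequality for elementary symmetric functions on the cube (part SM).
-/

set_option autoImplicit false

namespace Pool.Agent.W38.ST

open Finset

lemma decomp {k : ℕ} (g : Fin k → ℝ) (i j : Fin k) (hij : i ≠ j) :
    (∏ m, g m = g i * g j * ∏ m ∈ (univ.erase i).erase j, g m) ∧
    (∑ m, g m = g i + g j + ∑ m ∈ (univ.erase i).erase j, g m) ∧
    (∑ m, ∏ l ∈ univ.erase m, g l = (g i + g j) * ∏ m ∈ (univ.erase i).erase j, g m +
      g i * g j * ∑ m ∈ (univ.erase i).erase j, ∏ l ∈ ((univ.erase i).erase j).erase m, g l) := by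
  classical
  set t : Finset (Fin k) := (univ.erase i).erase j with ht
  have hjt : j ∉ t := by simp [ht]
  have hit : i ∉ insert j t := by simp [ht, hij]
  have hit' : i ∉ t := fun h => hit (mem_insert_of_mem h)
  have hU : (univ : Finset (Fin k)) = insert i (insert j t) := by
    ext x
    simp only [ht, mem_univ, mem_insert, mem_erase, true_iff]
    by_cases h1 : x = i
    · exact Or.inl h1
    · by_cases h2 : x = j
      · exact Or.inr (Or.inl h2)
      · exact Or.inr (Or.inr ⟨h2, h1, trivial⟩)
  refine ⟨?_, ?_, ?_⟩
  · rw [hU, prod_insert hit, prod_insert hjt]; ring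
  · rw [hU, sum_insert hit, sum_insert hjt]; ring
  · have e1 : univ.erase i = insert j t := by
      rw [hU, erase_insert hit]
    have e2 : univ.erase j = insert i t := by
      ext x
      simp only [ht, mem_univ, mem_insert, mem_erase, and_true]
      constructor
      · intro h
        by_cases h1 : x = i
        · exact Or.inl h1
        · exact Or.inr ⟨h, h1⟩
      · rintro (rfl | h)
        · exact hij
        · exact h.1
    have e3 : ∀ m ∈ t, (univ : Finset (Fin k)).erase m = insert i (insert j (t.erase m)) := by
      intro m hm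
      have hmi : i ≠ m := fun h => hit' (h ▸ hm)
      have hmj : j ≠ m := fun h => hjt (h ▸ hm)
      rw [hU, erase_insert_of_ne hmi, erase_insert_of_ne hmj]
    have hsum : ∑ m, ∏ l ∈ univ.erase m, g l =
        ∑ m ∈ insert i (insert j t), ∏ l ∈ univ.erase m, g l := by rw [← hU]
    rw [hsum, sum_insert hit, sum_insert hjt, e1, e2, prod_insert hjt, prod_insert hit']
    have e4 : ∑ m ∈ t, ∏ l ∈ univ.erase m, g l = g i * g j * ∑ m ∈ t, ∏ l ∈ t.erase m, g l := by
      rw [mul_sum]
      refine sum_congr rfl (fun m hm => ?_)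
      rw [e3 m hm, prod_insert, prod_insert]
      · ring
      · exact fun h => hjt (mem_of_mem_erase h)
      · intro h
        rcases mem_insert.1 h with h | h
        · exact hij h
        · exact hit' (mem_of_mem_erase h)
    rw [e4]
    ring

theorem main (k : ℕ) (a b y : ℝ) (ha : 0 ≤ a) (hb : -(a * ((k : ℝ) - 2)) ≤ b) :
    ∀ (n : ℕ) (g : Fin k → ℝ), (∀ i, 0 ≤ g i) → (∀ i, g i ≤ 1) → ∑ i, g i = k * y →
    (univ.filter (fun i => g i ≠ y)).card = n →
    a * (∑ i, ∏ j ∈ univ.erase i, g j) + b * ∏ i, g i ≤ a * k * y ^ (k - 1) + b * y ^ k := by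
  classical
  intro n
  induction n using Nat.strong_induction_on with
  | _ n ih =>
    intro g h0 h1 hs hn
    by_cases hall : ∀ i, g i = y
    · have e1 : ∀ i : Fin k, ∏ j ∈ univ.erase i, g j = y ^ (k - 1) := by
        intro i
        rw [prod_congr rfl (fun j _ => hall j), prod_const, card_erase_of_mem (mem_univ i),
          card_univ, Fintype.card_fin]
      have e2 : ∏ i, g i = y ^ k := by
        rw [prod_congr rfl (fun j _ => hall j), prod_const, card_univ, Fintype.card_fin]
      rw [sum_congr rfl (fun i _ => e1 i), e2, sum_const, card_univ, Fintype.card_fin, nsmul_eq_mul]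
      apply le_of_eq; ring
    · push Not at hall
      obtain ⟨i0, hi0⟩ := hall
      have hconst : ∑ _i : Fin k, y = k * y := by
        rw [sum_const, card_univ, Fintype.card_fin, nsmul_eq_mul]
      have hlt : ∃ i, g i < y := by
        by_contra hc
        push Not at hc
        have : ∑ _i : Fin k, y < ∑ i, g i := sum_lt_sum (fun i _ => hc i)
          ⟨i0, mem_univ _, lt_of_le_of_ne (hc i0) (Ne.symm hi0)⟩
        linarith
      have hgt : ∃ i, y < g i := by
        by_contra hc
        push Not at hc
        have : ∑ i, g i < ∑ _i : Fin k, y := sum_lt_sum (fun i _ => hc i)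
          ⟨i0, mem_univ _, lt_of_le_of_ne (hc i0) hi0⟩
        linarith
      obtain ⟨i, hi⟩ := hlt
      obtain ⟨j, hj⟩ := hgt
      have hij : i ≠ j := by rintro rfl; linarith
      set g' : Fin k → ℝ := Function.update (Function.update g i y) j (g i + g j - y) with hg'
      have gj : g' j = g i + g j - y := by rw [hg', Function.update_self]
      have gi : g' i = y := by
        rw [hg', Function.update_of_ne hij, Function.update_self]
      have gm : ∀ m, m ≠ i → m ≠ j → g' m = g m := fun m h1 h2 => by
        rw [hg', Function.update_of_ne h2, Function.update_of_ne h1]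
      set t : Finset (Fin k) := (univ.erase i).erase j with ht
      have gt : ∀ m ∈ t, g' m = g m := fun m hm => by
        rw [ht, mem_erase, mem_erase] at hm
        exact gm m hm.2.1 hm.1
      obtain ⟨d1, d2, d3⟩ := decomp g i j hij
      obtain ⟨d1', d2', d3'⟩ := decomp g' i j hij
      rw [← ht] at d1 d2 d3 d1' d2' d3'
      have hP : ∏ m ∈ t, g' m = ∏ m ∈ t, g m := prod_congr rfl gt
      have hS : ∑ m ∈ t, ∏ l ∈ t.erase m, g' l = ∑ m ∈ t, ∏ l ∈ t.erase m, g l :=
        sum_congr rfl (fun m _ => prod_congr rfl (fun l hl => gt l (mem_of_mem_erase hl)))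
      have hT : ∑ m ∈ t, g' m = ∑ m ∈ t, g m := sum_congr rfl gt
      have hb0 : ∀ m, 0 ≤ g' m := by
        intro m
        by_cases h2 : m = j
        · rw [h2, gj]; have := h0 i; linarith
        · by_cases h3 : m = i
          · rw [h3, gi]; have := h0 i; linarith
          · rw [gm m h3 h2]; exact h0 m
      have hb1 : ∀ m, g' m ≤ 1 := by
        intro m
        by_cases h2 : m = j
        · rw [h2, gj]; have := h1 j; linarith
        · by_cases h3 : m = i
          · rw [h3, gi]; have := h1 j; linarith
          · rw [gm m h3 h2]; exact h1 m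
      have hs' : ∑ i, g' i = k * y := by
        rw [d2', hT, gi, gj, ← hs, d2]; ring
      have hcard : (univ.filter (fun i => g' i ≠ y)).card < n := by
        rw [← hn]
        refine card_lt_card (Finset.ssubset_iff_subset_ne.2 ⟨?_, ?_⟩)
        · intro m hm
          rw [mem_filter] at hm ⊢
          refine ⟨mem_univ _, ?_⟩
          by_cases h2 : m = j
          · rw [h2]; exact hj.ne'
          · by_cases h3 : m = i
            · rw [h3]; exact hi.ne
            · rw [← gm m h3 h2]; exact hm.2
        · intro he
          have : i ∈ univ.filter (fun i => g' i ≠ y) := by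
            rw [he, mem_filter]; exact ⟨mem_univ _, hi.ne⟩
          exact (mem_filter.1 this).2 gi
      have hIH := ih _ hcard g' hb0 hb1 hs' rfl
      refine le_trans ?_ hIH
      rw [d1, d3, d1', d3', hP, hS, gi, gj]
      -- `S ≥ (k - 2) P`
      have hPnn : 0 ≤ ∏ m ∈ t, g m := prod_nonneg (fun m _ => h0 m)
      have htcard : (t.card : ℝ) = (k : ℝ) - 2 := by
        have h2 : t.card = k - 2 := by
          rw [ht, card_erase_of_mem (mem_erase.2 ⟨hij.symm, mem_univ _⟩),
            card_erase_of_mem (mem_univ _), card_univ, Fintype.card_fin]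
          omega
        have hk2 : 2 ≤ k := by
          have hi' := i.2
          have hj' := j.2
          have : (i : ℕ) ≠ j := fun h => hij (Fin.ext h)
          omega
        rw [h2, Nat.cast_sub hk2]; norm_num
      have hSP : ((k : ℝ) - 2) * ∏ m ∈ t, g m ≤ ∑ m ∈ t, ∏ l ∈ t.erase m, g l := by
        rw [← htcard, ← nsmul_eq_mul, ← sum_const]
        refine sum_le_sum (fun m hm => ?_)
        rw [← mul_prod_erase t g hm]
        have h2 : 0 ≤ ∏ l ∈ t.erase m, g l := prod_nonneg (fun m _ => h0 m)
        have h3 := h1 m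
        nlinarith
      have hcoef : 0 ≤ a * (∑ m ∈ t, ∏ l ∈ t.erase m, g l) + b * ∏ m ∈ t, g m := by
        have h2 : a * (((k : ℝ) - 2) * ∏ m ∈ t, g m) ≤ a * ∑ m ∈ t, ∏ l ∈ t.erase m, g l :=
          mul_le_mul_of_nonneg_left hSP ha
        have h3 : -(a * ((k : ℝ) - 2)) * ∏ m ∈ t, g m ≤ b * ∏ m ∈ t, g m :=
          mul_le_mul_of_nonneg_right hb hPnn
        linarith
      have hprod : 0 ≤ y * (g i + g j - y) - g i * g j := by
        have : y * (g i + g j - y) - g i * g j = (y - g i) * (g j - y) := by ring
        rw [this]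
        exact mul_nonneg (by linarith) (by linarith)
      have hfin := mul_nonneg hprod hcoef
      nlinarith

theorem SM : Pool.Agent.W546.ST.St_SM := by
  intro k _ g h0 h1 a b y ha hb hs
  exact main k a b y ha hb _ g h0 h1 hs rfl

end Pool.Agent.W38.ST
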